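import Pool.Agent.H22.Tilf1

set_option autoImplicit false

open MeasureTheory Filter Topology Complex Finset BoundedContinuousFunction
open scoped Pointwise ENNReal

namespace Pool.Agent.Results.MP_148afe_an.Counter

/-- Euclidean space -/
abbrev E (d : ℕ) : Type := EuclideanSpace ℝ (Fin d)

/-- a complex Radon measure, written as a locally integrable density times a locally finite
positive measure -/
structure RM (d : ℕ) where
  m : Measure (E d)
  h : E d → ℂ
  lf : IsLocallyFiniteMeasure m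
  li : LocallyIntegrable h m

variable {d : ℕ}

/-- the value of the measure on a function -/
noncomputable def act (μ : RM d) (f : E d → ℂ) : ℂ := ∫ x, f x * μ.h x ∂μ.m

/-- continuous with compact support -/
def Cc (f : E d → ℂ) : Prop := Continuous f ∧ HasCompactSupport f

/-- the character attached to `x` -/
noncomputable def ch (x t : E d) : ℂ := exp (2 * Real.pi * I * (inner ℝ x t : ℝ))

/-- inverse Fourier transform of a function -/
noncomputable def chk (g : E d → ℂ) (x : E d) : ℂ := ∫ t, g t * ch x t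

/-- the convolution of f with x ↦ conj (f (-x)) -/
noncomputable def auto (f : E d → ℂ) (x : E d) : ℂ := ∫ t, f t * (starRingEnd ℂ) (f (-(x - t)))

/-- `ν'` is the Fourier transform of `ν` -/
def FT (ν ν' : RM d) : Prop := ∀ f, Cc f →
  Integrable (fun x => ‖chk f x‖ ^ 2 * ‖ν'.h x‖) ν'.m ∧
    act ν (auto f) = act ν' (fun x => ((‖chk f x‖ ^ 2 : ℝ) : ℂ))

/-- the supremum over x of the total variation of x + K -/
noncomputable def nK (K : Set (E d)) (μ : RM d) : ℝ≥0∞ := ⨆ x : E d, ∫⁻ y in x +ᵥ K, ‖μ.h y‖ₑ ∂μ.m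

theorem cch (x : E d) : Continuous (ch x) := by unfold ch; fun_prop

theorem nch (x t : E d) : ‖ch x t‖ = 1 := by
  rw [ch, show 2 * (Real.pi : ℂ) * I * (inner ℝ x t : ℝ) =
    ((2 * Real.pi * inner ℝ x t : ℝ) : ℂ) * I by push_cast; ring, norm_exp_ofReal_mul_I]

theorem chp (k : ℕ) (x t : E d) : ch ((k : ℝ) • x) t = ch x t ^ k := by
  rw [ch, ch, ← exp_nat_mul, inner_smul_left]; congr 1; simp; ring

theorem ch_add (x s t : E d) : ch x (s + t) = ch x s * ch x t := by
  rw [ch, ch, ch, ← exp_add, inner_add_right]; congr 1; push_cast; ring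

theorem ch_neg (x t : E d) : ch x (-t) = (starRingEnd ℂ) (ch x t) := by
  rw [ch, ch, ← exp_conj, inner_neg_right]; congr 1
  simp only [map_mul, conj_I, conj_ofReal, map_ofNat]; push_cast; ring

theorem conv {f : E d → ℂ} (hf : Cc f) (y : E d) :
    Integrable (fun x => auto f x * ch y x) ∧
      ∫ x, auto f x * ch y x = ((‖chk f y‖ ^ 2 : ℝ) : ℂ) := by
  have i1 : Integrable (fun t => f t * ch y t) :=
    (hf.1.mul (cch _)).integrable_of_hasCompactSupport hf.2.mul_right
  have i2 : Integrable (fun s => (starRingEnd ℂ) (f (-s) * ch y (-s))) :=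
    (RCLike.conjLIE (K := ℂ)).toContinuousLinearEquiv.toContinuousLinearMap.integrable_comp
      i1.comp_neg
  have e : (fun x => auto f x * ch y x) = convolution (fun t => f t * ch y t)
      (fun s => (starRingEnd ℂ) (f (-s) * ch y (-s))) (ContinuousLinearMap.mul ℝ ℂ) volume := by
    funext x
    rw [auto, convolution_def, ← integral_mul_const]
    congr 1; funext t
    have : ch y x = ch y t * ch y (x - t) := by rw [← ch_add]; congr 1; abel
    rw [ContinuousLinearMap.mul_apply', map_mul, ch_neg, conj_conj, this]; ring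
  rw [e]
  refine ⟨i1.integrable_convolution _ i2, ?_⟩
  rw [integral_convolution _ i1 i2, integral_conj,
    integral_neg_eq_self (fun s => f s * ch y s) volume, ContinuousLinearMap.mul_apply']
  show chk f y * (starRingEnd ℂ) (chk f y) = _
  rw [mul_conj, normSq_eq_norm_sq]

noncomputable def ν (c : ℕ → ℂ) (N : ℕ) (w : E d) : RM d :=
  ⟨volume, fun t => ∑ k ∈ range N, c k * ch w t ^ k, inferInstance,
    (continuous_finsetSum _ fun _ _ => continuous_const.mul ((cch w).pow _)).locallyIntegrable⟩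

noncomputable def dm (N : ℕ) (w : E d) : Measure (E d) :=
  ∑ k ∈ range N, Measure.dirac ((k : ℝ) • w)

theorem di (N : ℕ) (w : E d) {F : Type} [NormedAddCommGroup F] (f : E d → F) :
    Integrable f (dm N w) :=
  integrable_finsetSum_measure.2 fun _ _ => integrable_dirac (by simp)

noncomputable def ν' (c : ℕ → ℂ) (N : ℕ) (w : E d) : RM d :=
  ⟨dm N w, fun x => c ⌊inner ℝ x w / ‖w‖ ^ 2⌋₊, by unfold dm; infer_instance,
    (di N w _).locallyIntegrable⟩

theorem fl (w : E d) (hw : w ≠ 0) (k : ℕ) : ⌊inner ℝ ((k : ℝ) • w) w / ‖w‖ ^ 2⌋₊ = k := by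
  have : ‖w‖ ≠ 0 := by simpa
  rw [inner_smul_left, real_inner_self_eq_norm_sq]; simp [this]

theorem aν' (c : ℕ → ℂ) (N : ℕ) (w : E d) (hw : w ≠ 0) (f : E d → ℂ) :
    act (ν' c N w) f = ∑ k ∈ range N, f ((k : ℝ) • w) * c k := by
  rw [act]
  show ∫ x, f x * c ⌊inner ℝ x w / ‖w‖ ^ 2⌋₊ ∂dm N w = _
  rw [dm, integral_finsetSum_measure fun _ _ => integrable_dirac enorm_lt_top]
  exact sum_congr rfl fun k _ => by rw [integral_dirac, fl w hw]

theorem ft (c : ℕ → ℂ) (N : ℕ) (w : E d) (hw : w ≠ 0) : FT (ν c N w) (ν' c N w) := fun f hf => by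
  refine ⟨di N w _, ?_⟩
  rw [aν' c N w hw, act]
  show ∫ t, auto f t * ∑ k ∈ range N, c k * ch w t ^ k = _
  simp only [← (conv hf _).2, ← integral_mul_const]
  rw [← integral_finsetSum]
  · congr 1; funext t
    rw [mul_sum]
    exact sum_congr rfl fun k _ => by rw [chp]; ring
  · exact fun k _ => (conv hf _).1.mul_const _

theorem nK_le (K : Set (E d)) (c : ℕ → ℂ) (N : ℕ) (w : E d) {r : ℝ}
    (hr : ∀ z : ℂ, ‖z‖ = 1 → ‖∑ k ∈ range N, c k * z ^ k‖ ≤ r) :
    nK K (ν c N w) ≤ ENNReal.ofReal r * volume K := by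
  refine iSup_le fun x => ?_
  calc _ ≤ ∫⁻ _ in x +ᵥ K, ENNReal.ofReal r ∂volume := by
        refine lintegral_mono fun y => ?_
        rw [← ofReal_norm]
        exact ENNReal.ofReal_le_ofReal (hr _ (nch w y))
    _ = _ := by rw [setLIntegral_const, measure_vadd]

theorem pow_le_pow_left_iff_aux {x y z r : ℝ} {n : ℕ} (h2 : x ^ 2 + y ^ 2 = z)
    (h3 : z ≤ (r * 4 ^ n) ^ 2) (hr : 0 ≤ r) : x ≤ r * 4 ^ n :=
  abs_le_of_sq_le_sq' (by nlinarith [sq_nonneg y]) (by positivity) |>.2

theorem result (d : ℕ) (hd : 1 ≤ d) (K : Set (E d)) (hK : IsCompact K) :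
    ∃ μ μ' : ℕ → RM d, (∀ n, FT (μ n) (μ' n)) ∧ (∀ n, nK K (μ n) < ⊤ ∧ nK K (μ' n) < ⊤) ∧
      Tendsto (fun n => nK K (μ n)) atTop (𝓝 0) ∧
      ∃ g, Cc g ∧ ¬ Tendsto (fun n => act (μ' n) g) atTop (𝓝 0) := by
  let v : E d := EuclideanSpace.single ⟨0, hd⟩ 1
  have hv : ‖v‖ = 1 := by simp [v]
  let w : ℕ → E d := fun n => (1 / (16 : ℝ) ^ n) • v
  have nw : ∀ n, ‖w n‖ = 1 / 16 ^ n := fun n => by
    rw [norm_smul, hv, mul_one, Real.norm_eq_abs, abs_of_pos (by positivity)]
  have w0 : ∀ n, w n ≠ 0 := fun n => norm_pos_iff.1 (by rw [nw]; positivity)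
  choose a b hab hs using fun n : ℕ => Pool.Agent.H22.Tilf.rs (4 * n)
  let c : ℕ → ℕ → ℂ := fun n k => ((1 / 8 ^ n : ℝ) : ℂ) * a n k
  have hb : ∀ n, nK K (ν (c n) (2 ^ (4 * n)) (w n)) ≤
      ENNReal.ofReal (2 * (1 / 2) ^ n) * volume K := fun n => by
    refine nK_le K _ _ _ fun z hz => ?_
    have h1 : ‖∑ k ∈ range (2 ^ (4 * n)), a n k * z ^ k‖ ≤ 2 * 4 ^ n := by
      have h2 := hs n z hz
      have h3 : (2 : ℝ) ^ (4 * n + 1) ≤ (2 * 4 ^ n) ^ 2 := by
        have e : ((4 : ℝ) ^ n) ^ 2 = 2 ^ (4 * n) := by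
          rw [← pow_mul, mul_comm n 2, pow_mul, pow_mul]; norm_num
        rw [pow_succ, mul_pow, e]
        nlinarith [pow_pos (show (0 : ℝ) < 2 by norm_num) (4 * n)]
      exact pow_le_pow_left_iff_aux h2 h3 (by norm_num)
    simp only [c, mul_assoc, ← mul_sum, norm_mul, norm_real, Real.norm_eq_abs]
    rw [abs_of_pos (by positivity)]
    calc _ ≤ 1 / 8 ^ n * (2 * 4 ^ n) := mul_le_mul_of_nonneg_left h1 (by positivity)
      _ = _ := by
        rw [show (8 : ℝ) = 2 * 4 by norm_num, mul_pow, one_div_pow]; field_simp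
  have hvK : volume K < ⊤ := hK.measure_lt_top
  refine ⟨fun n => ν (c n) (2 ^ (4 * n)) (w n), fun n => ν' (c n) (2 ^ (4 * n)) (w n),
    fun n => ft _ _ _ (w0 n), fun n => ⟨(hb n).trans_lt
      (ENNReal.mul_lt_top ENNReal.ofReal_lt_top hvK), ?_⟩, ?_, ?_⟩
  · refine lt_of_le_of_lt (iSup_le fun x => setLIntegral_le_lintegral _ _) ?_
    exact (di _ _ _).2
  · refine tendsto_of_tendsto_of_tendsto_of_le_of_le tendsto_const_nhds ?_ (fun _ => zero_le) hb
    have t := (tendsto_pow_atTop_nhds_zero_of_lt_one (r := (1 / 2 : ℝ)) (by norm_num)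
      (by norm_num)).const_mul 2
    have t2 := ENNReal.Tendsto.mul_const (ENNReal.tendsto_ofReal t) (Or.inr hvK.ne)
    simpa using t2
  · by_contra hcon
    push Not at hcon
    let β : ContDiffBump (0 : E d) := ⟨1, 2, one_pos, one_lt_two⟩
    let T : ℕ → (E d →ᵇ ℂ) →L[ℂ] ℂ := fun n =>
      ∑ k ∈ range (2 ^ (4 * n)), c n k • evalCLM ℂ ((k : ℝ) • w n)
    have hT : ∀ n g, T n g = ∑ k ∈ range (2 ^ (4 * n)), g ((k : ℝ) • w n) * c n k := fun n g => by
      simp only [T, ContinuousLinearMap.sum_apply, ContinuousLinearMap.smul_apply, evalCLM_apply,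
        smul_eq_mul, mul_comm]
    obtain ⟨C, hC⟩ := banach_steinhaus (g := T) fun g => by
      have t := hcon (fun x => (β x : ℂ) * g x)
        ⟨(continuous_ofReal.comp β.continuous).mul g.continuous,
          (β.hasCompactSupport.comp_left (g := ofReal) ofReal_zero).mul_right⟩
      obtain ⟨M, hM⟩ := t.norm.bddAbove_range
      refine ⟨M, fun n => le_trans (le_of_eq ?_) (hM ⟨n, rfl⟩)⟩
      simp only
      rw [aν' _ _ _ (w0 n), hT]
      congr 1
      refine sum_congr rfl fun k hk => ?_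
      have hk' : (k : ℝ) ≤ 16 ^ n := by
        have := (mem_range.1 hk).le
        rw [pow_mul] at this
        exact_mod_cast this
      rw [β.one_of_mem_closedBall (by
        rw [mem_closedBall_zero_iff, norm_smul, nw, Real.norm_natCast, mul_one_div]
        exact (div_le_one (by positivity)).2 hk')]
      simp
    obtain ⟨n, hn⟩ := pow_unbounded_of_one_lt C (show (1 : ℝ) < 2 by norm_num)
    let s : Set (E d) := (fun k : ℕ => (k : ℝ) • w n) '' Set.Iio (2 ^ (4 * n))
    have hsf : s.Finite := (Set.finite_Iio _).image _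
    have : Finite s := hsf
    let f : s →ᵇ ℂ := ofNormedAddCommGroupDiscrete
      (fun x => (starRingEnd ℂ) (a n ⌊inner ℝ x.1 (w n) / ‖w n‖ ^ 2⌋₊)) 1
      (fun x => by rw [norm_conj, (hab n _).1])
    obtain ⟨g, hg1, hg2⟩ := exists_norm_eq_domRestrict_eq hsf.isClosed ℂ f
    have hg : ‖g‖ ≤ 1 := by
      rw [hg1]; exact norm_ofNormedAddCommGroup_le _ zero_le_one _
    have hval : T n g = ((2 ^ n : ℝ) : ℂ) := by
      rw [hT, sum_congr rfl (g := fun _ => ((1 / 8 ^ n : ℝ) : ℂ)) fun k hk => ?_]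
      · rw [sum_const, card_range, nsmul_eq_mul, pow_mul]
        push_cast
        rw [show (16 : ℂ) = 2 * 8 by norm_num, mul_pow]; field_simp
      · have e1 : g ((k : ℝ) • w n) = f ⟨_, ⟨k, mem_range.1 hk, rfl⟩⟩ := by rw [← hg2]; rfl
        rw [e1]
        show (starRingEnd ℂ) (a n ⌊inner ℝ ((k : ℝ) • w n) (w n) / ‖w n‖ ^ 2⌋₊) * _ = _
        rw [fl _ (w0 n)]
        simp only [c]
        rw [mul_left_comm, conj_mul', (hab n k).1]; simp
    have h1 := (T n).le_opNorm g
    rw [hval, norm_real, Real.norm_eq_abs, abs_of_pos (by positivity)] at h1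
    have h2 := mul_le_mul (hC n) hg (norm_nonneg _) ((norm_nonneg _).trans (hC n))
    linarith

end Pool.Agent.Results.MP_148afe_an.Counter
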